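import Mathlib

set_option autoImplicit false

namespace Pool.Agent.H.MP_881be3_lc

open FirstOrder

/-- Function symbols of the language of groups. -/
inductive GrpFunc : ℕ → Type
  | mul : GrpFunc 2
  | inv : GrpFunc 1
  | one : GrpFunc 0

/-- The language of groups: product, inverse, identity, and no relation symbols. -/
def grpLang : Language := ⟨GrpFunc, fun _ => Empty⟩

/-- Every group is a structure for the language of groups. -/
instance grpStructure (G : Type) [Group G] : grpLang.Structure G where
  funMap := fun f v =>
    match f, v with
    | GrpFunc.mul, v => v 0 * v 1
    | GrpFunc.inv, v => (v 0)⁻¹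
    | GrpFunc.one, _ => 1
  RelMap := fun r _ => Empty.elim r

end Pool.Agent.H.MP_881be3_lc
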