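import Mathlib

set_option autoImplicit false

namespace Pool.Agent.H.MP_881be3_lc

def Tame {A : Type} [AddCommGroup A] (S : A → Prop) : Prop :=
  ∃ N : ℤ, N ≠ 0 ∧ ∃ Λ : Set (A →+ ℤ), Λ.Finite ∧ ∀ (m : ℤ) (x x' : A), IsCoprime m N →
    (∃ z, x' = m • x + N • z) → (∀ l ∈ Λ, l x = 0 ↔ l x' = 0) → S x → S x'

variable {A B : Type} [AddCommGroup A] [AddCommGroup B]

theorem Tame.not {S : A → Prop} (h : Tame S) : Tame (fun x => ¬ S x) := by
  obtain ⟨N, hN, Λ, hΛ, h⟩ := h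
  refine ⟨N, hN, Λ, hΛ, fun m x x' ⟨a, b, e⟩ ⟨z, hz⟩ hl hx hx' => hx ?_⟩
  refine h a x' x ⟨m, b, by linarith⟩ ⟨b • x - a • z, ?_⟩ (fun l h => (hl l h).symm) hx'
  rw [hz]
  calc x = (a * m + b * N) • x := by rw [e, one_smul]
    _ = _ := by module

theorem Tame.and {S T : A → Prop} (h : Tame S) (h' : Tame T) : Tame (fun x => S x ∧ T x) := by
  obtain ⟨N, hN, Λ, hΛ, h⟩ := h
  obtain ⟨N', hN', Λ', hΛ', h'⟩ := h'
  refine ⟨N * N', mul_ne_zero hN hN', Λ ∪ Λ', hΛ.union hΛ', fun m x x' hm ⟨z, hz⟩ hl hx => ⟨?_, ?_⟩⟩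
  · exact h m x x' hm.of_mul_right_left ⟨N' • z, by rw [hz, mul_smul]⟩
      (fun l h => hl l (Or.inl h)) hx.1
  · exact h' m x x' hm.of_mul_right_right ⟨N • z, by rw [hz, mul_comm, mul_smul]⟩
      (fun l h => hl l (Or.inr h)) hx.2

theorem Tame.const (p : Prop) : Tame (fun _ : A => p) :=
  ⟨1, one_ne_zero, ∅, Set.finite_empty, fun _ _ _ _ _ _ h => h⟩

theorem Tame.congr {S T : A → Prop} (h : Tame S) (e : ∀ x, T x ↔ S x) : Tame T := by
  rw [show T = S from funext (fun x => propext (e x))]; exact h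

theorem Tame.imp {S T : A → Prop} (h : Tame S) (h' : Tame T) : Tame (fun x => S x → T x) :=
  (h.and h'.not).not.congr (fun x => by tauto)

theorem Tame.all {ι : Type} [Finite ι] {S : ι → A → Prop} (h : ∀ i, Tame (S i)) :
    Tame (fun x => ∀ i, S i x) := by
  classical
  have := Fintype.ofFinite ι
  have key : ∀ s : Finset ι, Tame (fun x => ∀ i ∈ s, S i x) := by
    intro s
    induction s using Finset.induction_on with
    | empty => exact (Tame.const True).congr (fun x => by simp)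
    | insert i s _ ih => exact ((h i).and ih).congr (fun x => by simp)
  exact (key Finset.univ).congr (fun x => by simp)

theorem Tame.comap {S : A → Prop} (h : Tame S) (f : B →+ A) : Tame (fun x => S (f x)) := by
  obtain ⟨N, hN, Λ, hΛ, h⟩ := h
  refine ⟨N, hN, (fun l => l.comp f) '' Λ, hΛ.image _, fun m x x' hm ⟨z, hz⟩ hl hx => ?_⟩
  exact h m _ _ hm ⟨f z, by simp [hz]⟩ (fun l h => hl _ ⟨l, h, rfl⟩) hx

theorem Tame.zero (l : A →+ ℤ) : Tame (fun x => l x = 0) :=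
  ⟨1, one_ne_zero, {l}, Set.finite_singleton _, fun _ _ _ _ _ hl h => (hl l rfl).1 h⟩

theorem Tame.ex_int {S : A × ℤ → Prop} (h : Tame S) : Tame (fun x => ∃ y, S (x, y)) := by
  obtain ⟨N, hN, Λ, hΛ, h⟩ := h
  let r : (A × ℤ →+ ℤ) → (A →+ ℤ) := fun l => l.comp (AddMonoidHom.inl A ℤ)
  let c : (A × ℤ →+ ℤ) → ℤ := fun l => l (0, 1)
  have ev : ∀ (l : A × ℤ →+ ℤ) x y, l (x, y) = r l x + y * c l := by
    intro l x y
    have : (x, y) = (x, 0) + y • ((0 : A), (1 : ℤ)) := by simp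
    rw [this, map_add, map_zsmul]; rfl
  obtain ⟨M, hM, hdvd⟩ : ∃ M : ℤ, M ≠ 0 ∧ ∀ l ∈ Λ, c l ≠ 0 → c l ∣ M := by
    classical
    refine ⟨∏ l ∈ hΛ.toFinset.filter (fun l => c l ≠ 0), c l,
      Finset.prod_ne_zero_iff.2 (fun l hl => (Finset.mem_filter.1 hl).2), fun l hl h0 => ?_⟩
    exact Finset.dvd_prod_of_mem _ (by simp [hl, h0])
  refine ⟨N * M, mul_ne_zero hN hM, r '' Λ ∪ Set.image2 (fun l k => c l • r k - c k • r l) Λ Λ,
    (hΛ.image _).union (hΛ.image2 _ hΛ), fun m x x' hm ⟨z, hz⟩ hl ⟨y, hy⟩ => ?_⟩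
  have key : ∀ y' w : ℤ, y' = m * y + N * w → (∀ l ∈ Λ, l (x, y) = 0 ↔ l (x', y') = 0) →
      ∃ y, S (x', y) := fun y' w e hl' =>
    ⟨y', h m _ _ hm.of_mul_right_left ⟨(M • z, w), by simp [hz, e, mul_smul]⟩ hl' hy⟩
  by_cases hc : ∃ l ∈ Λ, c l ≠ 0 ∧ l (x, y) = 0
  · obtain ⟨l, hl1, hl2, hl3⟩ := hc
    obtain ⟨q, hq⟩ := hdvd l hl1 hl2
    have e1 : l (x', m * y + N * (-q * r l z)) = 0 := by
      rw [ev] at hl3 ⊢
      rw [hz, map_add, map_zsmul, map_zsmul, smul_eq_mul, smul_eq_mul, hq]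
      linear_combination m * hl3
    refine key _ (-q * r l z) rfl (fun k hk => ?_)
    have e2 := hl _ (Or.inr ⟨l, hl1, k, hk, rfl⟩)
    simp only [AddMonoidHom.sub_apply, AddMonoidHom.smul_apply, smul_eq_mul] at e2
    rw [ev] at hl3 e1
    rw [ev, ev]
    constructor
    · intro e3
      have := e2.1 (by linear_combination c l * e3 - c k * hl3)
      apply mul_left_cancel₀ hl2
      linear_combination this + c k * e1
    · intro e3
      have := e2.2 (by linear_combination c l * e3 - c k * e1)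
      apply mul_left_cancel₀ hl2
      linear_combination this + c k * hl3
  · have hfin : (⋃ l ∈ Λ, {w : ℤ | c l ≠ 0 ∧ l (x', m * y + N * w) = 0}).Finite := by
      refine hΛ.biUnion (fun l _ => Set.Subsingleton.finite (fun w hw w' hw' => ?_))
      have e1 := hw.2
      have e2 := hw'.2
      rw [ev] at e1 e2
      apply mul_left_cancel₀ (mul_ne_zero hN hw.1)
      linear_combination e1 - e2
    obtain ⟨w, hw⟩ := hfin.exists_notMem
    refine key _ w rfl (fun k hk => ?_)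
    by_cases h0 : c k = 0
    · rw [ev, ev, h0, mul_zero, mul_zero, add_zero, add_zero]
      exact hl _ (Or.inl ⟨k, hk, rfl⟩)
    · refine iff_of_false (fun e => hc ⟨k, hk, h0, e⟩) (fun e => hw ?_)
      simp only [Set.mem_iUnion]
      exact ⟨k, hk, h0, e⟩

theorem Tame.ex_fin (n : ℕ) : ∀ {A : Type} [AddCommGroup A] {S : A × (Fin n → ℤ) → Prop},
    Tame S → Tame (fun x => ∃ y, S (x, y)) := by
  induction n with
  | zero =>
    intro A _ S h
    refine (h.comap (AddMonoidHom.inl _ _)).congr (fun x => ⟨fun ⟨y, hy⟩ => ?_, fun h => ⟨_, h⟩⟩)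
    rwa [Subsingleton.elim y 0] at hy
  | succ n ih =>
    intro A _ S h
    let f : (A × ℤ) × (Fin n → ℤ) →+ A × (Fin (n + 1) → ℤ) :=
      AddMonoidHom.mk' (fun p => (p.1.1, Fin.cons p.1.2 p.2)) (fun p q => by
        ext i
        · rfl
        · refine Fin.cases rfl (fun j => rfl) i)
    refine (ih (h.comap f)).ex_int.congr (fun x => ⟨fun ⟨y, hy⟩ => ⟨y 0, Fin.tail y, ?_⟩,
      fun ⟨a, b, h⟩ => ⟨_, h⟩⟩)
    rwa [← Fin.cons_self_tail y] at hy

theorem Tame.scale {S : A → Prop} (h : Tame S) : ∃ N : ℤ, N ≠ 0 ∧ ∀ m : ℤ, m ≠ 0 →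
    IsCoprime m N → ∀ x, S x ↔ S (m • x) := by
  obtain ⟨N, hN, Λ, -, h1⟩ := h.not
  obtain ⟨N', hN', Λ', -, h2⟩ := h
  refine ⟨N * N', mul_ne_zero hN hN', fun m hm hc x => ⟨?_, not_imp_not.1 ?_⟩⟩
  · exact h2 m _ _ hc.of_mul_right_right ⟨0, by simp⟩ (fun l _ => by simp [hm])
  · exact h1 m _ _ hc.of_mul_right_left ⟨0, by simp⟩ (fun l _ => by simp [hm])

end Pool.Agent.H.MP_881be3_lc
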