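import Mathlib
import Pool.Agent.H.MP_881be3_lc.Tame
import Pool.Agent.H.MP_881be3_lc.Defs

set_option autoImplicit false

namespace Pool.Agent.H.MP_881be3_lc

open FirstOrder FirstOrder.Language Multiplicative Matrix

section General

variable {n : ℕ} {P : Type} [Group P] (φ : P →* MulAut (Multiplicative (Fin n → ℤ)))

def mk (a : Fin n → ℤ) (p : P) : Multiplicative (Fin n → ℤ) ⋊[φ] P := ⟨ofAdd a, p⟩

def act (p : P) : (Fin n → ℤ) →+ (Fin n → ℤ) :=
  AddMonoidHom.mk' (fun a => toAdd (φ p (ofAdd a))) (fun a b => by simp)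

theorem mk_mul (a b : Fin n → ℤ) (p q : P) :
    mk φ a p * mk φ b q = mk φ (a + act φ p b) (p * q) := rfl

theorem mk_inv (a : Fin n → ℤ) (p : P) : (mk φ a p)⁻¹ = mk φ (act φ p⁻¹ (-a)) p⁻¹ := rfl

theorem mk_inj {a b : Fin n → ℤ} {p q : P} : mk φ a p = mk φ b q ↔ a = b ∧ p = q :=
  ⟨fun h => ⟨congrArg (fun g => toAdd (SemidirectProduct.left g)) h, congrArg SemidirectProduct.right h⟩,
    fun ⟨h1, h2⟩ => by rw [h1, h2]⟩

theorem term_lin {A β : Type} [AddCommGroup A] (e : β → A →+ (Fin n → ℤ)) (f : β → P)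
    (t : grpLang.Term β) : ∃ (l : A →+ (Fin n → ℤ)) (p : P), ∀ a : A,
      t.realize (fun i => mk φ (e i a) (f i)) = mk φ (l a) p := by
  induction t with
  | var i => exact ⟨e i, f i, fun _ => rfl⟩
  | func F ts ih =>
    choose l p h using ih
    cases F with
    | mul =>
      refine ⟨l 0 + (act φ (p 0)).comp (l 1), p 0 * p 1, fun a => ?_⟩
      show (ts 0).realize _ * (ts 1).realize _ = _
      rw [h, h]; rfl
    | inv =>
      refine ⟨(act φ (p 0)⁻¹).comp (-l 0), (p 0)⁻¹, fun a => ?_⟩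
      show ((ts 0).realize _)⁻¹ = _
      rw [h]; rfl
    | one => exact ⟨0, 1, fun _ => rfl⟩

theorem formula_tame [Finite P] {α : Type} {k : ℕ} (ψ : grpLang.BoundedFormula α k) :
    ∀ {A : Type} [AddCommGroup A] (e : α → A →+ (Fin n → ℤ)) (f : α → P)
      (e' : Fin k → A →+ (Fin n → ℤ)) (f' : Fin k → P),
      Tame (fun a : A => ψ.Realize (fun i => mk φ (e i a) (f i)) (fun i => mk φ (e' i a) (f' i))) := by
  induction ψ with
  | falsum => intro A _ e f e' f'; exact Tame.const False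
  | equal t1 t2 =>
    intro A _ e f e' f'
    obtain ⟨l1, p1, h1⟩ := term_lin φ (Sum.elim e e') (Sum.elim f f') t1
    obtain ⟨l2, p2, h2⟩ := term_lin φ (Sum.elim e e') (Sum.elim f f') t2
    refine ((Tame.all (fun i : Fin n => Tame.zero
      ((Pi.evalAddMonoidHom (fun _ => ℤ) i).comp (l1 - l2)))).and (Tame.const (p1 = p2))).congr
      (fun a => ?_)
    have : Sum.elim (fun i => mk φ (e i a) (f i)) (fun i => mk φ (e' i a) (f' i)) =
        fun i => mk φ (Sum.elim e e' i a) (Sum.elim f f' i) := by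
      ext1 i; cases i <;> rfl
    show t1.realize _ = t2.realize _ ↔ _
    rw [this, h1, h2, mk_inj]
    simp [funext_iff, sub_eq_zero]
  | rel R => exact Empty.elim R
  | imp _ _ ih1 ih2 => intro A _ e f e' f'; exact (ih1 e f e' f').imp (ih2 e f e' f')
  | all ψ ih =>
    intro A _ e f e' f'
    refine (Tame.all (fun p : P => (Tame.ex_fin n (ih (fun i => (e i).comp (AddMonoidHom.fst _ _)) f
      (Fin.snoc (α := fun _ => _) (fun i => (e' i).comp (AddMonoidHom.fst _ _))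
        (AddMonoidHom.snd _ _)) (Fin.snoc (α := fun _ => P) f' p)).not).not)).congr (fun a => ?_)
    have : ∀ (y : Fin n → ℤ) (p : P), (fun i => mk φ ((Fin.snoc (α := fun _ => A × (Fin n → ℤ) →+ _)
        (fun i => (e' i).comp (AddMonoidHom.fst _ _)) (AddMonoidHom.snd _ _) i) (a, y))
        (Fin.snoc (α := fun _ => P) f' p i)) =
        Fin.snoc (α := fun _ => _) (fun i => mk φ (e' i a) (f' i)) (mk φ y p) := by
      intro y p
      ext1 i
      refine Fin.lastCases ?_ (fun j => ?_) i <;> simp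
    simp only [BoundedFormula.realize_all, not_exists, not_not, this]
    exact ⟨fun h p y => h _, fun h g => h g.right (toAdd g.left)⟩

def autEquiv {G : Type} [Group G] (σ : MulAut G) : G ≃[grpLang] G where
  toEquiv := σ.toEquiv
  map_fun' := fun F v => by
    cases F with
    | mul => exact map_mul σ _ _
    | inv => exact map_inv σ _
    | one => exact map_one σ
  map_rel' := fun R => Empty.elim R

theorem aut_right [Finite P] (hf : ∀ p : P, (∀ a, act φ p a = a) → p = 1)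
    (σ : MulAut (Multiplicative (Fin n → ℤ) ⋊[φ] P)) (a : Fin n → ℤ) :
    (σ (mk φ a 1)).right = 1 := by
  have h1 : ∀ g : Multiplicative (Fin n → ℤ) ⋊[φ] P, (g ^ Nat.card P).right = 1 := by
    intro g
    show SemidirectProduct.rightHom (g ^ Nat.card P) = 1
    rw [map_pow, pow_card_eq_one']
  have h2 : ∀ g : Multiplicative (Fin n → ℤ) ⋊[φ] P, Commute (mk φ a 1) (g ^ Nat.card P) := by
    intro g
    have := h1 g
    generalize g ^ Nat.card P = y at this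
    obtain ⟨y, p⟩ := y
    obtain rfl : p = 1 := this
    ext1 <;> simp [mk, mul_comm]
  refine hf _ (fun x => ?_)
  have h3 := (h2 (σ.symm (SemidirectProduct.inl (ofAdd x)))).map σ
  rw [map_pow, MulEquiv.apply_symm_apply, ← map_pow] at h3
  have h4 := congrArg SemidirectProduct.left h3.eq
  simp only [SemidirectProduct.mul_left, SemidirectProduct.left_inl, SemidirectProduct.right_inl,
    map_one, MulAut.one_apply] at h4
  rw [mul_comm, map_pow] at h4
  have h5 := congrArg toAdd (mul_right_cancel h4)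
  simp only [toAdd_pow, toAdd_ofAdd] at h5
  exact smul_right_injective _ (Nat.card_pos (α := P)).ne' h5

theorem aut_lin [Finite P] (hf : ∀ p : P, (∀ a, act φ p a = a) → p = 1)
    (σ : MulAut (Multiplicative (Fin n → ℤ) ⋊[φ] P)) :
    ∃ T : (Fin n → ℤ) →+ (Fin n → ℤ), Function.Surjective T ∧ ∀ a, σ (mk φ a 1) = mk φ (T a) 1 := by
  have h : ∀ a, σ (mk φ a 1) = mk φ (toAdd (σ (mk φ a 1)).left) 1 := by
    intro a; ext1
    · rfl
    · exact aut_right φ hf σ a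
  refine ⟨AddMonoidHom.mk' (fun a => toAdd (σ (mk φ a 1)).left) (fun a b => ?_), fun b => ?_, h⟩
  · have : mk φ (a + b) 1 = mk φ a 1 * mk φ b 1 := by simp [mk_mul, act]
    simp [this, aut_right φ hf σ a]
  · refine ⟨toAdd (σ.symm (mk φ b 1)).left, ?_⟩
    have : mk φ (toAdd (σ.symm (mk φ b 1)).left) 1 = σ.symm (mk φ b 1) := by
      ext1
      · rfl
      · exact (aut_right φ hf σ.symm b).symm
    simp only [AddMonoidHom.mk'_apply, this, MulEquiv.apply_symm_apply]; rfl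

end General

def hM : Matrix (Fin 4) (Fin 4) ℤ := !![0, 0, 0, -1; 1, 0, 0, -1; 0, 1, 0, -1; 0, 0, 1, -1]

def sM : Matrix (Fin 4) (Fin 4) ℤ := !![1, 0, -1, 0; 0, 0, -1, 1; 0, 1, -1, 0; 0, 0, -1, 0]

def hG : GL (Fin 4) ℤ := ⟨hM, hM ^ 4, by decide +kernel, by decide +kernel⟩

def sG : GL (Fin 4) ℤ := ⟨sM, sM ^ 3, by decide +kernel, by decide +kernel⟩

def PP : Subgroup (GL (Fin 4) ℤ) where
  carrier := {g | ∃ (i : Fin 5) (j : Fin 4), (g : Matrix (Fin 4) (Fin 4) ℤ) = hM ^ i.1 * sM ^ j.1}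
  one_mem' := ⟨0, 0, by simp⟩
  mul_mem' := by
    rintro a b ⟨i, j, ha⟩ ⟨k, l, hb⟩
    rw [Set.mem_ofPred_eq, Units.val_mul, ha, hb]
    clear ha hb
    revert i j k l
    decide +kernel
  inv_mem' := by
    rintro a ⟨i, j, ha⟩
    have : ∀ (i : Fin 5) (j : Fin 4), ∃ (k : Fin 5) (l : Fin 4),
        hM ^ i.1 * sM ^ j.1 * (hM ^ k.1 * sM ^ l.1) = 1 := by decide +kernel
    obtain ⟨k, l, h⟩ := this i j
    exact ⟨k, l, Units.inv_eq_of_mul_eq_one_right (by rw [ha, h])⟩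

instance : Finite PP := by
  refine Finite.of_injective (β := Set.range (fun x : Fin 5 × Fin 4 => hM ^ x.1.1 * sM ^ x.2.1))
    (fun g => ⟨g.1.1, by obtain ⟨i, j, h⟩ := g.2; exact ⟨(i, j), h.symm⟩⟩) (fun a b h => ?_)
  exact Subtype.ext (Units.ext (congrArg Subtype.val h))

def ph : PP →* MulAut (Multiplicative (Fin 4 → ℤ)) where
  toFun p :=
    { toFun := fun x => ofAdd (p.1.1 *ᵥ toAdd x)
      invFun := fun x => ofAdd ((p.1⁻¹).1 *ᵥ toAdd x)
      left_inv := fun x => by simp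
      right_inv := fun x => by simp
      map_mul' := fun x y => by simp [mulVec_add] }
  map_one' := by ext x; simp
  map_mul' p q := by ext x; simp

theorem act_ph (p : PP) (a : Fin 4 → ℤ) : act ph p a = p.1.1 *ᵥ a := rfl

def h0 : PP := ⟨hG, 1, 0, by simp [hG]⟩

def s0 : PP := ⟨sG, 0, 1, by simp [sG]⟩

def e0 : Fin 4 → ℤ := ![1, 0, 0, 0]

theorem h0_mul (x : Fin 4 → ℤ) : h0.1.1 *ᵥ x = ![-x 3, x 0 - x 3, x 1 - x 3, x 2 - x 3] := by
  ext j
  fin_cases j <;> simp [h0, hG, hM, mulVec, dotProduct, Fin.sum_univ_four] <;> ring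

theorem sM_mul (x : Fin 4 → ℤ) : sM *ᵥ x = ![x 0 - x 2, x 3 - x 2, x 1 - x 2, -x 2] := by
  ext j
  fin_cases j <;> simp [sM, mulVec, dotProduct, Fin.sum_univ_four] <;> ring

theorem h0_mulQ (x : Fin 4 → ℚ) :
    h0.1.1.map (Int.cast : ℤ → ℚ) *ᵥ x = ![-x 3, x 0 - x 3, x 1 - x 3, x 2 - x 3] := by
  ext j
  fin_cases j <;> simp [h0, hG, hM, mulVec, dotProduct, Fin.sum_univ_four] <;> ring

theorem s0_mulQ (x : Fin 4 → ℚ) :
    s0.1.1.map (Int.cast : ℤ → ℚ) *ᵥ x = ![x 0 - x 2, x 3 - x 2, x 1 - x 2, -x 2] := by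
  ext j
  fin_cases j <;> simp [s0, sG, sM, mulVec, dotProduct, Fin.sum_univ_four] <;> ring

theorem same_type (ψ : grpLang.Formula (Fin 1)) :
    ψ.Realize (fun _ => mk ph e0 h0) ↔ ψ.Realize (fun _ => mk ph (2 • e0) h0) := by
  obtain ⟨N, hN, h⟩ := (formula_tame ph ψ (fun _ => AddMonoidHom.id _) (fun _ => h0)
    Fin.elim0 Fin.elim0).scale
  obtain ⟨m, hm1, hm2, hm3⟩ := Nat.forall_exists_prime_gt_and_modEq N.natAbs (q := 5) (a := 2)
    (by norm_num) (by norm_num)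
  have hc : IsCoprime (m : ℤ) N := by
    rw [Int.isCoprime_iff_gcd_eq_one]
    exact (Nat.Prime.coprime_iff_not_dvd hm2).2 (fun hd =>
      absurd (Nat.le_of_dvd (Int.natAbs_pos.2 hN) hd) (by omega))
  have h1 := h m (by exact_mod_cast hm2.ne_zero) hc e0
  obtain ⟨k, hk⟩ : ∃ k : ℤ, (m : ℤ) = 2 + 5 * k := ⟨m / 5, by unfold Nat.ModEq at hm3; omega⟩
  have h2 := StrongHomClass.realize_formula (autEquiv (MulAut.conj (mk ph (k • ![4, 3, 2, 1]) 1))) ψ
    (v := fun _ => mk ph (2 • e0) h0)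
  have h3 : (autEquiv (MulAut.conj (mk ph (k • ![4, 3, 2, 1]) 1))) ∘
      (fun _ : Fin 1 => mk ph (2 • e0) h0) = fun _ => mk ph ((m : ℤ) • e0) h0 := by
    ext1 i
    show mk ph _ 1 * mk ph _ h0 * (mk ph _ 1)⁻¹ = _
    rw [mul_inv_eq_iff_eq_mul, mk_mul, mk_mul, mk_inj, act_ph, act_ph, hk]
    refine ⟨?_, by simp⟩
    ext j
    fin_cases j <;> simp [h0, hG, hM, e0] <;> ring
  rw [h3] at h2
  refine Iff.trans ?_ h2
  have h4 : ∀ v xs, ψ.Realize v ↔ BoundedFormula.Realize ψ v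
      (xs : Fin 0 → Multiplicative (Fin 4 → ℤ) ⋊[ph] PP) := by
    intro v xs; exact iff_of_eq (congrArg (BoundedFormula.Realize ψ v) (Subsingleton.elim _ _))
  exact ((h4 _ _).trans h1).trans (h4 _ _).symm

theorem no_aut (σ : MulAut (Multiplicative (Fin 4 → ℤ) ⋊[ph] PP)) :
    σ (mk ph e0 h0) ≠ mk ph (2 • e0) h0 := by
  intro hσ
  obtain ⟨T, hT, h⟩ := aut_lin ph (fun p hp => Subtype.ext (Units.ext (by
    ext i j
    have := congrFun (hp (Pi.single j 1)) i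
    simpa [act_ph, one_apply, Pi.single_apply] using this))) σ
  have hh : σ (mk ph 0 h0) = mk ph (2 • e0 - T e0) h0 := by
    have : mk ph 0 h0 = mk ph (-e0) 1 * mk ph e0 h0 := by simp [mk_mul, act_ph]
    rw [this, map_mul, hσ, h, mk_mul]; simp [act_ph, sub_eq_neg_add]
  obtain ⟨c, f, hs⟩ : ∃ c f, σ (mk ph 0 s0) = mk ph c f := ⟨toAdd (σ (mk ph 0 s0)).left, _, rfl⟩
  have eqv : ∀ (p q : PP) (d : Fin 4 → ℤ), σ (mk ph 0 p) = mk ph d q →
      ∀ x, T (p.1.1 *ᵥ x) = q.1.1 *ᵥ T x := by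
    intro p q d hp x
    have : mk ph (p.1.1 *ᵥ x) 1 * mk ph 0 p = mk ph 0 p * mk ph x 1 := by simp [mk_mul, act_ph]
    have := congrArg σ this
    rw [map_mul, map_mul, h, h, hp, mk_mul, mk_mul, mk_inj, act_ph, act_ph] at this
    simpa [add_comm] using this.1
  have r : mk ph 0 s0 * mk ph 0 h0 = mk ph 0 h0 * mk ph 0 h0 * mk ph 0 s0 := by
    simp only [mk_mul, map_zero, add_zero, mk_inj, true_and]
    exact Subtype.ext (Units.ext (show sM * hM = hM * hM * sM by decide +kernel))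
  have r2 := congrArg σ r
  rw [map_mul, map_mul, map_mul, hh, hs] at r2
  simp only [mk_mul, mk_inj, act_ph] at r2
  obtain ⟨r2, r3⟩ := r2
  have r4 : f.1.1 * hM = hM * hM * f.1.1 := congrArg (fun p : PP => p.1.1) r3
  have r5 : f.1.1 *ᵥ T e0 = T e0 := by
    rw [← eqv _ _ _ hs, show s0.1.1 *ᵥ e0 = e0 by decide +kernel]
  have r6 := eqv _ _ _ hh
  obtain ⟨x, hx⟩ := hT e0
  have r7 : x = x 0 • e0 + x 1 • h0.1.1 *ᵥ e0 + x 2 • h0.1.1 *ᵥ h0.1.1 *ᵥ e0 +
      x 3 • h0.1.1 *ᵥ h0.1.1 *ᵥ h0.1.1 *ᵥ e0 := by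
    simp only [h0_mul]
    ext j
    fin_cases j <;> simp [e0]
  rw [r7] at hx
  simp only [map_add, map_zsmul, r6] at hx
  obtain ⟨i, j, hf⟩ := f.2
  rw [hf] at r2 r4 r5
  obtain rfl : j = 1 := by
    clear r2 r5 hf; revert i j; decide +kernel
  generalize T e0 = u at r2 r5 hx
  have chi : ∀ (i : Fin 5) (y : Fin 4 → ℤ),
      (5 : ℤ) ∣ ∑ j, ((hM ^ i.1 * sM ^ (1 : Fin 4).1) *ᵥ y) j - ∑ j, y j := by
    intro i y
    have : ∀ (i : Fin 5) (l : Fin 4), (5 : ℤ) ∣ ∑ j, (hM ^ i.1 * sM ^ (1 : Fin 4).1) j l - 1 := by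
      decide +kernel
    simp only [mulVec, dotProduct]
    rw [Finset.sum_comm, ← Finset.sum_sub_distrib]
    refine Finset.dvd_sum (fun l _ => ?_)
    rw [← Finset.sum_mul, ← sub_one_mul]
    exact (this i l).mul_right _
  have c1 := chi i (2 • e0 - u)
  have c2 := congrArg (fun y => ∑ j, y j) r2
  simp only [Pi.add_apply, Finset.sum_add_distrib] at c2
  generalize ∑ j, ((hM ^ i.1 * sM ^ (1 : Fin 4).1) *ᵥ (2 • e0 - u)) j = z at c1 c2
  rw [show (h0 * h0).1.1 *ᵥ c = h0.1.1 *ᵥ h0.1.1 *ᵥ c from (mulVec_mulVec _ _ _).symm] at c2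
  simp only [h0_mul] at c2
  simp [e0, Fin.sum_univ_four] at c1 c2
  have c7 : (5 : ℤ) ∣ u 0 + u 1 + u 2 + u 3 - 2 := by omega
  obtain ⟨l, hl⟩ : ∃ l : Fin 5, hM ^ l.1 * (hM ^ i.1 * sM ^ (1 : Fin 4).1) = sM * hM ^ l.1 := by
    clear c1 c2 r2 r4 r5 hf c7; revert i; decide +kernel
  have c3 : sM *ᵥ (hM ^ l.1 *ᵥ u) = hM ^ l.1 *ᵥ u := by
    rw [mulVec_mulVec, ← hl, ← mulVec_mulVec, r5]
  have c4 : u = hM ^ (5 - l.1) *ᵥ (hM ^ l.1 *ᵥ u) := by
    rw [mulVec_mulVec, ← pow_add, Nat.sub_add_cancel l.2.le, show hM ^ 5 = 1 by decide +kernel,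
      one_mulVec]
  generalize hM ^ l.1 *ᵥ u = w at c3 c4
  have c5 : w = w 0 • e0 := by
    rw [sM_mul] at c3
    have a0 := congrFun c3 0
    have a2 := congrFun c3 2
    have a3 := congrFun c3 3
    simp at a0 a2 a3
    ext j
    fin_cases j <;> simp [e0] <;> omega
  rw [c5, mulVec_smul] at c4
  have c6 : (5 : ℤ) ∣ ∑ j, (hM ^ (5 - l.1) *ᵥ e0) j - 1 := by
    clear hl c4; revert l; decide +kernel
  generalize hM ^ (5 - l.1) *ᵥ e0 = y at c4 c6
  generalize w 0 = k at c4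
  have : k ∣ 1 := by
    have := congrFun hx 0
    rw [c4] at this
    simp only [mulVec_smul, smul_comm _ k, ← smul_add] at this
    exact ⟨_, this.symm⟩
  subst c4
  rw [Fin.sum_univ_four] at c6
  rcases Int.isUnit_iff.1 (isUnit_of_dvd_one this) with rfl | rfl <;> simp at c7 <;> omega

theorem irred (W : Submodule ℚ (Fin 4 → ℚ))
    (hW : ∀ p ∈ PP, ∀ w ∈ W, (p.1.map (Int.cast : ℤ → ℚ)) *ᵥ w ∈ W) : W = ⊥ ∨ W = ⊤ := by
  have hh := hW _ h0.2
  have hs := hW _ s0.2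
  have tr : ∀ w ∈ W, 4 * w 0 - w 1 - w 2 - w 3 ≠ 0 → (![1, 0, 0, 0] : Fin 4 → ℚ) ∈ W := by
    intro w hw h
    have := W.add_mem (W.add_mem (W.add_mem hw (hs _ hw)) (hs _ (hs _ hw))) (hs _ (hs _ (hs _ hw)))
    simp only [s0_mulQ] at this
    rw [← W.smul_mem_iff h]
    convert this using 1
    ext j
    fin_cases j <;> simp [vecHead, vecTail] <;> ring
  rw [or_iff_not_imp_left]
  intro hne
  obtain ⟨w, hw, h0'⟩ := (Submodule.ne_bot_iff W).1 hne
  have b0 : (![1, 0, 0, 0] : Fin 4 → ℚ) ∈ W := by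
    by_contra hc
    have a0 := not_imp_comm.1 (tr _ hw) hc
    have a1 := not_imp_comm.1 (tr _ (hh _ hw)) hc
    have a2 := not_imp_comm.1 (tr _ (hh _ (hh _ hw))) hc
    have a3 := not_imp_comm.1 (tr _ (hh _ (hh _ (hh _ hw)))) hc
    simp only [h0_mulQ] at a1 a2 a3
    simp at a0 a1 a2 a3
    apply h0'
    ext j
    fin_cases j <;> simp <;> linarith
  rw [eq_top_iff]
  intro x _
  have := W.add_mem (W.add_mem (W.add_mem (W.smul_mem (x 0) b0) (W.smul_mem (x 1) (hh _ b0)))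
    (W.smul_mem (x 2) (hh _ (hh _ b0)))) (W.smul_mem (x 3) (hh _ (hh _ (hh _ b0))))
  simp only [h0_mulQ] at this
  convert this using 1
  ext j
  fin_cases j <;> simp

end Pool.Agent.H.MP_881be3_lc
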